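import Mathlib
import Pool.Agent.Helper13.TU.Defs
import Pool.Agent.Helper13.TU.TU1
import Pool.Agent.Helper39.TU.TU2

/-!
# TU-3: box principle for units of a number field
-/

set_option autoImplicit false

open NumberField Polynomial Module IntermediateField Metric
open scoped TensorProduct

namespace Pool.Agent.Helper13.TU

variable {K : Type*} [Field K] [NumberField K]

/-! ### preliminary facts -/

theorem elemOf_sub_dvd {R : ℕ} (P : Prim K R) (b b' : Fin (finrank ℚ K) → ℤ) (N : ℕ)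
    (h : ∀ k, b k % (N : ℤ) = b' k % (N : ℤ)) : ((N : ℕ) : 𝓞 K) ∣ elemOf P b' - elemOf P b := by
  unfold elemOf
  rw [← Finset.sum_sub_distrib]
  refine Finset.dvd_sum fun k _ => ?_
  rw [← sub_mul]
  refine Dvd.dvd.mul_right ?_ _
  obtain ⟨t, ht⟩ := Int.ModEq.dvd (show b k ≡ b' k [ZMOD (N : ℤ)] from h k)
  refine ⟨(t : 𝓞 K), ?_⟩
  have : ((b' k - b k : ℤ) : 𝓞 K) = (((N : ℤ) * t : ℤ) : 𝓞 K) := by rw [ht]
  push_cast at this
  exact this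

theorem abs_sub_lt_of_floor_eq {x y : ℝ} {q : ℕ} (hq : 1 ≤ q) (hx : 0 ≤ x) (hy : 0 ≤ y)
    (h : ⌊x * q⌋₊ = ⌊y * q⌋₊) : |x - y| < 1 / q := by
  have hq0 : (0 : ℝ) < q := by exact_mod_cast hq
  have h1 := Nat.floor_le (mul_nonneg hx hq0.le)
  have h2 := Nat.lt_floor_add_one (x * q)
  have h3 := Nat.floor_le (mul_nonneg hy hq0.le)
  have h4 := Nat.lt_floor_add_one (y * q)
  rw [h] at h1 h2
  rw [abs_lt]
  constructor
  · have : y - x < 1 / q := by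
      rw [lt_div_iff₀ hq0]
      nlinarith
    linarith
  · rw [lt_div_iff₀ hq0]
    nlinarith

theorem abs_arg_le {z w : ℂ} (hz : z ≠ 0) (hw : w ≠ 0) {δ : ℝ} (hδ : δ ≤ 1)
    (h : |Complex.arg (z * w) - Complex.arg z| ≤ δ) : |Complex.arg w| ≤ δ := by
  have hpi := Real.pi_gt_three
  have h1 : (Complex.arg w : Real.Angle) =
      ((Complex.arg (z * w) - Complex.arg z : ℝ) : Real.Angle) := by
    rw [Real.Angle.coe_sub, Complex.arg_mul_coe_angle hz hw]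
    abel
  have h2 : Complex.arg w = Complex.arg (z * w) - Complex.arg z := by
    have h3 := congrArg Real.Angle.toReal h1
    rw [Complex.arg_coe_angle_toReal_eq_arg] at h3
    rw [h3]
    rw [Real.Angle.toReal_coe_eq_self_iff]
    rw [abs_le] at h
    constructor <;> linarith [h.1, h.2]
  rw [h2]
  exact h

theorem unit_approx {R : ℕ} (P : Prim K R) (q : ℕ) (hq : 1 ≤ q) (v v' : (K →+* ℂ) → ℝ)
    (hconj : ∀ σ, v (ComplexEmbedding.conjugate σ) = v σ) (hsum : ∑ σ, v σ = 0)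
    (hconj' : ∀ σ, v' (ComplexEmbedding.conjugate σ) = v' σ) (hsum' : ∑ σ, v' σ = 0)
    (σ₁ σ₂ : K →+* ℂ) :
    ∃ k : ℕ, 1 ≤ k ∧ k ≤ cellBd (finrank ℚ K) R q ∧ ∃ η η' : (𝓞 K)ˣ,
      (∀ σ : K →+* ℂ, |Real.log ‖σ ((η : 𝓞 K) : K)‖ - k * v σ| ≤ 1 / q) ∧
      (∀ σ : K →+* ℂ, |Real.log ‖σ ((η' : 𝓞 K) : K)‖ - k * v' σ| ≤ 1 / q) ∧
      |Complex.arg (σ₁ ((η : 𝓞 K) : K) * σ₂ ((η' : 𝓞 K) : K))| ≤ 1 / q := by
  classical
  set d := finrank ℚ K with hd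
  have hd1 : 1 ≤ d := Module.finrank_pos
  set c : ℕ := cM d R with hc
  have hc1 : 1 ≤ c := by
    have hR := P.one_le
    have : 1 ≤ R ^ d := Nat.one_le_pow _ _ hR
    rw [hc, cM]
    nlinarith
  have hc1' : (1 : ℝ) ≤ c := by exact_mod_cast hc1
  have hq1 : (1 : ℝ) ≤ q := by exact_mod_cast hq
  set C : ℕ := c ^ d with hC
  set T : ℕ := 4 * (d * c + 1) * q with hT
  -- the elements
  have hscale : ∀ (u : (K →+* ℂ) → ℝ) (_ : ∀ σ, u (ComplexEmbedding.conjugate σ) = u σ)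
      (_ : ∑ σ, u σ = 0) (i : ℕ), ∃ b : Fin d → ℤ, elemOf P b ≠ 0 ∧
      (∀ σ : K →+* ℂ, ‖σ (elemOf P b : K)‖ ≤ c * Real.exp ((i : ℝ) * u σ)) := by
    intro u hu hs i
    refine exists_elem P (fun σ => (i : ℝ) * u σ) (fun σ => by simp only [hu σ]) ?_
    rw [← Finset.mul_sum, hs, mul_zero]
  choose b hb0 hb using hscale v hconj hsum
  choose b' hb0' hb' using hscale v' hconj' hsum'
  have hfac : ∀ i : ℕ, _ := fun i => elem_facts (hb0 i) hc1' (fun σ => (i : ℝ) * v σ)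
    (by rw [← Finset.mul_sum, hsum, mul_zero]) (hb i)
  have hfac' : ∀ i : ℕ, _ := fun i => elem_facts (hb0' i) hc1' (fun σ => (i : ℝ) * v' σ)
    (by rw [← Finset.mul_sum, hsum', mul_zero]) (hb' i)
  set β : ℕ → 𝓞 K := fun i => elemOf P (b i) with hβ
  set β' : ℕ → 𝓞 K := fun i => elemOf P (b' i) with hβ'
  set Nf : ℕ → ℕ := fun i => (Algebra.norm ℤ (β i)).natAbs with hNf
  set Nf' : ℕ → ℕ := fun i => (Algebra.norm ℤ (β' i)).natAbs with hNf'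
  have hN1 : ∀ i, 1 ≤ Nf i := fun i => (hfac i).1
  have hN1' : ∀ i, 1 ≤ Nf' i := fun i => (hfac' i).1
  have hNC : ∀ i, Nf i < C + 1 := fun i => by
    have := (hfac i).2.1
    have h2 : (Nf i : ℝ) ≤ ((C : ℕ) : ℝ) := by rw [hC]; push_cast; exact this
    have : Nf i ≤ C := by exact_mod_cast h2
    omega
  have hNC' : ∀ i, Nf' i < C + 1 := fun i => by
    have := (hfac' i).2.1
    have h2 : (Nf' i : ℝ) ≤ ((C : ℕ) : ℝ) := by rw [hC]; push_cast; exact this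
    have : Nf' i ≤ C := by exact_mod_cast h2
    omega
  -- generic bounds for the entries
  have hres : ∀ (N : ℕ) (_ : 1 ≤ N) (_ : N < C + 1) (t : ℤ), (t % (N : ℤ)).toNat < C + 1 := by
    intro N h1 h2 t
    have h3 : t % (N : ℤ) < N := Int.emod_lt_of_pos _ (by exact_mod_cast h1)
    omega
  have hlogb : ∀ x : ℝ, |x| ≤ (d : ℝ) * c → ⌊(x + d * c) * q⌋₊ < T := by
    intro x hx
    have hx' := abs_le.1 hx
    have h0 : 0 ≤ (x + d * c) * q := mul_nonneg (by linarith [hx'.1]) (by linarith)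
    rw [Nat.floor_lt h0]
    have : ((T : ℕ) : ℝ) = 4 * (d * c + 1) * q := by rw [hT]; push_cast; ring
    rw [this]
    have hq0 : (0 : ℝ) < q := by linarith
    have : 0 ≤ (d : ℝ) * c := by positivity
    apply mul_lt_mul_of_pos_right _ hq0
    linarith [hx'.2]
  have hargb : ∀ z : ℂ, ⌊(Complex.arg z + Real.pi) * q⌋₊ < 8 * q := by
    intro z
    have h1 := Complex.neg_pi_lt_arg z
    have h2 := Complex.arg_le_pi z
    have h3 := Real.pi_lt_four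
    have hq0 : (0 : ℝ) < q := by linarith
    have h0 : 0 ≤ (Complex.arg z + Real.pi) * q := mul_nonneg (by linarith) (by linarith)
    rw [Nat.floor_lt h0]
    push_cast
    exact mul_lt_mul_of_pos_right (by linarith) hq0
  -- the class map
  let cell : Type _ := (Fin (C + 1) × (Fin d → Fin (C + 1))) × (Fin (C + 1) × (Fin d → Fin (C + 1)))
    × (((K →+* ℂ) → Fin T) × ((K →+* ℂ) → Fin T)) × Fin (8 * q)
  let cls : Fin (cellBd d R q + 1) → cell := fun i =>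
    ((⟨Nf i, hNC i⟩, fun k => ⟨(b i k % (Nf i : ℤ)).toNat, hres _ (hN1 i) (hNC i) _⟩),
     (⟨Nf' i, hNC' i⟩, fun k => ⟨(b' i k % (Nf' i : ℤ)).toNat, hres _ (hN1' i) (hNC' i) _⟩),
     (fun σ => ⟨⌊(Real.log ‖σ (β i : K)‖ - (i : ℕ) * v σ + d * c) * q⌋₊, hlogb _ ((hfac i).2.2 σ)⟩,
      fun σ => ⟨⌊(Real.log ‖σ (β' i : K)‖ - (i : ℕ) * v' σ + d * c) * q⌋₊,
        hlogb _ ((hfac' i).2.2 σ)⟩),
     ⟨⌊(Complex.arg (σ₁ (β i : K) * σ₂ (β' i : K)) + Real.pi) * q⌋₊, hargb _⟩)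
  have hcard : Fintype.card cell < Fintype.card (Fin (cellBd d R q + 1)) := by
    have hemb : Fintype.card (K →+* ℂ) = d := by
      rw [hd]; exact NumberField.Embeddings.card K ℂ
    have h1 : Fintype.card cell = cellBd d R q := by
      simp only [cell, Fintype.card_prod, Fintype.card_fin, Fintype.card_fun, hemb]
      rw [cellBd, ← hc, ← hC, ← hT]
      ring
    rw [h1, Fintype.card_fin]
    omega
  obtain ⟨i, j, hij, hcl⟩ := Fintype.exists_ne_map_eq_of_card_lt cls hcard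
  wlog hlt : i < j generalizing i j
  · exact this j i hij.symm hcl.symm (lt_of_le_of_ne (not_lt.1 hlt) hij.symm)
  have hNij : Nf i = Nf j := congrArg (fun z : cell => (z.1.1 : ℕ)) hcl
  have hbij : ∀ k, (b i k % (Nf i : ℤ)).toNat = (b j k % (Nf j : ℤ)).toNat := fun k =>
    congrArg (fun z : cell => (z.1.2 k : ℕ)) hcl
  have hNij' : Nf' i = Nf' j := congrArg (fun z : cell => (z.2.1.1 : ℕ)) hcl
  have hbij' : ∀ k, (b' i k % (Nf' i : ℤ)).toNat = (b' j k % (Nf' j : ℤ)).toNat := fun k =>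
    congrArg (fun z : cell => (z.2.1.2 k : ℕ)) hcl
  have hlog : ∀ σ : K →+* ℂ, ⌊(Real.log ‖σ (β i : K)‖ - (i : ℕ) * v σ + d * c) * q⌋₊ =
      ⌊(Real.log ‖σ (β j : K)‖ - (j : ℕ) * v σ + d * c) * q⌋₊ := fun σ =>
    congrArg (fun z : cell => (z.2.2.1.1 σ : ℕ)) hcl
  have hlog' : ∀ σ : K →+* ℂ, ⌊(Real.log ‖σ (β' i : K)‖ - (i : ℕ) * v' σ + d * c) * q⌋₊ =
      ⌊(Real.log ‖σ (β' j : K)‖ - (j : ℕ) * v' σ + d * c) * q⌋₊ := fun σ =>
    congrArg (fun z : cell => (z.2.2.1.2 σ : ℕ)) hcl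
  have harg : ⌊(Complex.arg (σ₁ (β i : K) * σ₂ (β' i : K)) + Real.pi) * q⌋₊ =
      ⌊(Complex.arg (σ₁ (β j : K) * σ₂ (β' j : K)) + Real.pi) * q⌋₊ :=
    congrArg (fun z : cell => (z.2.2.2 : ℕ)) hcl
  have hlt' : (i : ℕ) < (j : ℕ) := hlt
  refine ⟨(j : ℕ) - (i : ℕ), by omega, by have := j.2; omega, ?_⟩
  have hmod : ∀ (N N' : ℕ) (_ : 1 ≤ N) (_ : N = N') (s t : ℤ),
      (s % (N : ℤ)).toNat = (t % (N' : ℤ)).toNat → s % (N : ℤ) = t % (N : ℤ) := by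
    intro N N' h1 h2 s t h3
    subst h2
    have h4 : 0 ≤ s % (N : ℤ) := Int.emod_nonneg _ (by omega)
    have h5 : 0 ≤ t % (N : ℤ) := Int.emod_nonneg _ (by omega)
    omega
  obtain ⟨η, hη⟩ := associated_of_congr (hb0 i) (hb0 j) hNij
    (elemOf_sub_dvd P (b i) (b j) (Nf i) fun k => hmod _ _ (hN1 i) hNij _ _ (hbij k))
  obtain ⟨η', hη'⟩ := associated_of_congr (hb0' i) (hb0' j) hNij'
    (elemOf_sub_dvd P (b' i) (b' j) (Nf' i) fun k => hmod _ _ (hN1' i) hNij' _ _ (hbij' k))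
  have hcoe : ∀ (x : 𝓞 K) (_ : x ≠ 0) (σ : K →+* ℂ), σ (x : K) ≠ 0 := by
    intro x hx σ
    rw [Ne, map_eq_zero]
    exact fun h => hx (by exact_mod_cast h)
  have hsubc : ((((j : ℕ) - (i : ℕ) : ℕ)) : ℝ) = (j : ℕ) - (i : ℕ) := by
    rw [Nat.cast_sub hlt'.le]
  have key : ∀ (x y : 𝓞 K) (u : (𝓞 K)ˣ) (_ : x ≠ 0) (_ : y = x * (u : 𝓞 K)) (w : (K →+* ℂ) → ℝ)
      (σ : K →+* ℂ) (_ : |Real.log ‖σ (x : K)‖ - (i : ℕ) * w σ| ≤ (d : ℝ) * c)
      (_ : |Real.log ‖σ (y : K)‖ - (j : ℕ) * w σ| ≤ (d : ℝ) * c)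
      (_ : ⌊(Real.log ‖σ (x : K)‖ - (i : ℕ) * w σ + d * c) * q⌋₊ =
        ⌊(Real.log ‖σ (y : K)‖ - (j : ℕ) * w σ + d * c) * q⌋₊),
      |Real.log ‖σ ((u : 𝓞 K) : K)‖ - ((((j : ℕ) - (i : ℕ) : ℕ)) : ℝ) * w σ| ≤ 1 / q := by
    intro x y u hx hy w σ h1 h2 h3
    have hu : σ ((u : 𝓞 K) : K) ≠ 0 := hcoe _ (Units.ne_zero u) σ
    have h4 := abs_sub_lt_of_floor_eq hq (by linarith [(abs_le.1 h1).1])
      (by linarith [(abs_le.1 h2).1]) h3
    have h5 : Real.log ‖σ (y : K)‖ = Real.log ‖σ (x : K)‖ + Real.log ‖σ ((u : 𝓞 K) : K)‖ := by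
      rw [hy]
      push_cast
      rw [map_mul, norm_mul, Real.log_mul (norm_ne_zero_iff.2 (hcoe x hx σ))
        (norm_ne_zero_iff.2 hu)]
    rw [h5, abs_sub_comm] at h4
    rw [hsubc]
    refine le_of_eq_of_le ?_ h4.le
    congr 1
    ring
  refine ⟨η, η', fun σ => ?_, fun σ => ?_, ?_⟩
  · exact key _ _ η (hb0 i) hη v σ ((hfac i).2.2 σ) ((hfac j).2.2 σ) (hlog σ)
  · exact key _ _ η' (hb0' i) hη' v' σ ((hfac' i).2.2 σ) ((hfac' j).2.2 σ) (hlog' σ)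
  · have hz : σ₁ (β i : K) * σ₂ (β' i : K) ≠ 0 :=
      mul_ne_zero (hcoe _ (hb0 i) σ₁) (hcoe _ (hb0' i) σ₂)
    have hw : σ₁ ((η : 𝓞 K) : K) * σ₂ ((η' : 𝓞 K) : K) ≠ 0 :=
      mul_ne_zero (hcoe _ (Units.ne_zero η) σ₁) (hcoe _ (Units.ne_zero η') σ₂)
    refine abs_arg_le hz hw (by rw [div_le_one (by linarith)]; exact hq1) ?_
    have hprod : σ₁ (β i : K) * σ₂ (β' i : K) * (σ₁ ((η : 𝓞 K) : K) * σ₂ ((η' : 𝓞 K) : K)) =
        σ₁ (β j : K) * σ₂ (β' j : K) := by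
      simp only [hβ, hβ']
      rw [hη, hη']
      push_cast
      rw [map_mul, map_mul]
      ring
    rw [hprod]
    have h0 : ∀ z : ℂ, 0 ≤ Complex.arg z + Real.pi := fun z => by
      linarith [Complex.neg_pi_lt_arg z]
    have h6 := abs_sub_lt_of_floor_eq hq (h0 _) (h0 _) harg
    rw [abs_sub_comm] at h6
    refine le_of_eq_of_le ?_ h6.le
    congr 1
    ring

end Pool.Agent.Helper13.TU
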